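import Mathlib

/-! Filtrations of the Baire space by non-dominating families. -/

set_option autoImplicit false

namespace Pool.Agent.SFN

open Set Filter

abbrev B := ℕ → ℕ

/-- `N` is not dominating: some `g` is not eventually below a member of `N`. -/
def NonDom (N : Set B) : Prop := ∃ g : B, ∀ f ∈ N, ¬ ∀ᶠ n in atTop, g n ≤ f n

/-- `𝒩` is a chain of non-dominating families which exhausts the Baire space. -/
structure Filt (𝒩 : Set (Set B)) : Prop where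
  chain : IsChain (· ⊆ ·) 𝒩
  union : ⋃₀ 𝒩 = univ
  nd : ∀ N ∈ 𝒩, NonDom N

theorem Filt.tot {𝒩 : Set (Set B)} (h : Filt 𝒩) {N M : Set B} (hN : N ∈ 𝒩) (hM : M ∈ 𝒩) :
    N ⊆ M ∨ M ⊆ N := h.chain.total hN hM

theorem Filt.ex {𝒩 : Set (Set B)} (h : Filt 𝒩) (f : B) : ∃ N ∈ 𝒩, f ∈ N := by
  have : f ∈ ⋃₀ 𝒩 := h.union ▸ mem_univ f
  simpa using this

/-- A sequence of members of the chain is bounded in the chain. -/
theorem Filt.bdd {𝒩 : Set (Set B)} (h : Filt 𝒩) (N : ℕ → Set B) (hN : ∀ k, N k ∈ 𝒩) :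
    ∃ M ∈ 𝒩, ∀ k, N k ⊆ M := by
  by_contra hcon
  push Not at hcon
  have hcof : ∀ M ∈ 𝒩, ∃ k, M ⊆ N k := by
    intro M hM
    obtain ⟨k, hk⟩ := hcon M hM
    exact ⟨k, (h.tot (hN k) hM).resolve_left hk⟩
  choose g hg using fun k => h.nd (N k) (hN k)
  let G : B := fun n => ∑ k ∈ Finset.range (n + 1), g k n
  obtain ⟨M, hM, hGM⟩ := h.ex G
  obtain ⟨k, hk⟩ := hcof M hM
  refine hg k G (hk hGM) ?_
  filter_upwards [eventually_ge_atTop k] with n hn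
  exact Finset.single_le_sum (f := fun k => g k n) (fun _ _ => Nat.zero_le _)
    (Finset.mem_range.2 (Nat.lt_succ_of_le hn))

theorem Filt.bdd_pt {𝒩 : Set (Set B)} (h : Filt 𝒩) (f : ℕ → B) :
    ∃ M ∈ 𝒩, ∀ k, f k ∈ M := by
  choose N hN hf using fun k => h.ex (f k)
  obtain ⟨M, hM, hNM⟩ := h.bdd N hN
  exact ⟨M, hM, fun k => hNM k (hf k)⟩

theorem Filt.nonempty {𝒩 : Set (Set B)} (h : Filt 𝒩) : ∃ N, N ∈ 𝒩 := by
  obtain ⟨N, hN, -⟩ := h.ex 0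
  exact ⟨N, hN⟩

/-- A growing witness. -/
def Wit (N : Set B) (g : B) : Prop :=
  StrictMono g ∧ (∀ n, n < g n) ∧ ∀ f ∈ N, ¬ ∀ᶠ n in atTop, g n ≤ f n

theorem wit_of_nd {N : Set B} (h : NonDom N) : ∃ g, Wit N g := by
  obtain ⟨g, hg⟩ := h
  let G : B := fun n => ∑ k ∈ Finset.range (n + 1), (g k + 1)
  have hs : ∀ n, G (n + 1) = G n + (g (n + 1) + 1) := fun n => Finset.sum_range_succ _ _
  refine ⟨G, strictMono_nat_of_lt_succ fun n => ?_, fun n => ?_, fun f hf hd => hg f hf ?_⟩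
  · rw [hs]; omega
  · induction n with
    | zero => simp [G]
    | succ n ih => rw [hs]; omega
  · filter_upwards [hd] with n hn
    refine le_trans ?_ hn
    have : g n + 1 ≤ G n := Finset.single_le_sum (f := fun k => g k + 1)
      (fun _ _ => Nat.zero_le _) (Finset.mem_range.2 (Nat.lt_succ_self n))
    omega

theorem Wit.anti {N M : Set B} {g : B} (h : Wit M g) (hNM : N ⊆ M) : Wit N g :=
  ⟨h.1, h.2.1, fun f hf => h.2.2 f (hNM hf)⟩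

/-- The records of the chain: a well ordered cofinal part. -/
def Rec (𝒩 : Set (Set B)) : Set (Set B) :=
  {M | M ∈ 𝒩 ∧ ∀ M' ∈ 𝒩, WellOrderingRel M' M → M' ⊆ M}

theorem rec_cof {𝒩 : Set (Set B)} (h : Filt 𝒩) {N : Set B} (hN : N ∈ 𝒩) :
    ∃ M ∈ Rec 𝒩, N ⊆ M := by
  obtain ⟨M, hM, hmin⟩ := (IsWellFounded.wf (r := WellOrderingRel (α := Set B))).has_min
    {M | M ∈ 𝒩 ∧ N ⊆ M} ⟨N, hN, Subset.rfl⟩
  refine ⟨M, ⟨hM.1, fun M' hM' hr => ?_⟩, hM.2⟩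
  rcases h.tot hN hM' with h1 | h1
  · exact absurd hr (hmin M' ⟨hM', h1⟩)
  · exact h1.trans hM.2

theorem rec_least {𝒩 : Set (Set B)} {S : Set (Set B)} (hS : S ⊆ Rec 𝒩) (hne : S.Nonempty) :
    ∃ M ∈ S, ∀ M' ∈ S, M ⊆ M' := by
  obtain ⟨M, hM, hmin⟩ := (IsWellFounded.wf (r := WellOrderingRel (α := Set B))).has_min S hne
  refine ⟨M, hM, fun M' hM' => ?_⟩
  rcases trichotomous_of WellOrderingRel M M' with h1 | h1 | h1
  · exact (hS hM').2 M (hS hM).1 h1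
  · exact h1 ▸ Subset.rfl
  · exact absurd h1 (hmin M' hM')

/-- The cofinal family with its witnesses. -/
theorem Filt.scale {𝒩 : Set (Set B)} (h : Filt 𝒩) :
    ∃ (I : Set (Set B)) (g : Set B → B), I ⊆ 𝒩 ∧ (∀ N ∈ 𝒩, ∃ M ∈ I, N ⊆ M) ∧
      (∀ M ∈ I, Wit M (g M)) ∧ (∀ M ∈ I, ∀ M' ∈ I, M ⊂ M' → g M ∈ M') := by
  classical
  -- least record with a witness
  have hP : ∀ M ∈ Rec 𝒩, ∃ P ∈ Rec 𝒩, (∃ g ∈ P, Wit M g) ∧ M ⊆ P ∧
      ∀ P' ∈ Rec 𝒩, (∃ g ∈ P', Wit M g) → M ⊆ P' → P ⊆ P' := by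
    intro M hM
    obtain ⟨g, hg⟩ := wit_of_nd (h.nd M hM.1)
    obtain ⟨N, hN, hgN⟩ := h.ex g
    have hNM : ∃ K ∈ 𝒩, N ⊆ K ∧ M ⊆ K := by
      rcases h.tot hN hM.1 with h1 | h1
      · exact ⟨M, hM.1, h1, Subset.rfl⟩
      · exact ⟨N, hN, Subset.rfl, h1⟩
    obtain ⟨K, hK, hNK, hMK⟩ := hNM
    obtain ⟨L, hL, hKL⟩ := rec_cof h hK
    obtain ⟨P, hP, hPm⟩ := rec_least (𝒩 := 𝒩)
      (S := {P | P ∈ Rec 𝒩 ∧ (∃ g ∈ P, Wit M g) ∧ M ⊆ P}) (fun P hP => hP.1)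
      ⟨L, hL, ⟨g, hKL (hNK hgN), hg⟩, hMK.trans hKL⟩
    exact ⟨P, hP.1, hP.2.1, hP.2.2, fun P' hP' hw hs => hPm P' ⟨hP', hw, hs⟩⟩
  choose! P hPr hPw hPs hPm using hP
  have hmono : ∀ M ∈ Rec 𝒩, ∀ M' ∈ Rec 𝒩, M ⊆ M' → P M ⊆ P M' := by
    intro M hM M' hM' hs
    obtain ⟨g, hgP, hg⟩ := hPw M' hM'
    exact hPm M hM (P M') (hPr M' hM') ⟨g, hgP, hg.anti hs⟩ (hs.trans (hPs M' hM'))
  choose! g hgP hgw using hPw
  let I : Set (Set B) := {M | M ∈ Rec 𝒩 ∧ ∀ M' ∈ Rec 𝒩, M' ⊂ M → P M' ⊆ M}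
  refine ⟨I, g, fun M hM => hM.1.1, ?_, fun M hM => hgw M hM.1, ?_⟩
  · intro N hN
    obtain ⟨M0, hM0, hNM0⟩ := rec_cof h hN
    let s : ℕ → Set B := fun k => Nat.rec M0 (fun _ M => P M) k
    have hs0 : s 0 = M0 := rfl
    have hs1 : ∀ k, s (k + 1) = P (s k) := fun k => rfl
    have hsr : ∀ k, s k ∈ Rec 𝒩 := by
      intro k
      induction k with
      | zero => exact hM0
      | succ k ih => rw [hs1]; exact hPr _ ih
    obtain ⟨K, hK, hsK⟩ := h.bdd s (fun k => (hsr k).1)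
    obtain ⟨L, hL, hKL⟩ := rec_cof h hK
    obtain ⟨M, hM, hMm⟩ := rec_least (𝒩 := 𝒩)
      (S := {M | M ∈ Rec 𝒩 ∧ ∀ k, s k ⊆ M}) (fun P hP => hP.1)
      ⟨L, hL, fun k => (hsK k).trans hKL⟩
    refine ⟨M, ⟨hM.1, fun M' hM' hlt => ?_⟩, hNM0.trans (hs0 ▸ hM.2 0)⟩
    have : ∃ k, M' ⊆ s k := by
      by_contra hcon
      push Not at hcon
      have h2 : ∀ k, s k ⊆ M' := fun k => (h.tot hM'.1 (hsr k).1).resolve_left (hcon k)
      exact hlt.2 (hMm M' ⟨hM', h2⟩)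
    obtain ⟨k, hk⟩ := this
    exact (hmono M' hM' _ (hsr k) hk).trans (hs1 k ▸ hM.2 (k + 1))
  · intro M hM M' hM' hlt
    exact hM'.2 M hM.1 hlt (hgP M hM.1)

end Pool.Agent.SFN
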