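import Pool.Agent.Lib_helper75.SFN.Sel

/-! Cardinalities and the transfer to sets of reals. -/

set_option autoImplicit false

namespace Pool.Agent.SFN

open Set Filter Cardinal
open scoped Classical

/-- The dominating number `𝔡`. -/
noncomputable def dNum : Cardinal.{0} :=
  sInf {κ | ∃ D : Set (ℕ → ℕ), #D = κ ∧ ∀ g : ℕ → ℕ, ∃ f ∈ D, ∀ᶠ n in Filter.atTop, g n ≤ f n}

theorem dNum_spec : ∃ D : Set (ℕ → ℕ), #D = dNum ∧ ∀ g : ℕ → ℕ, ∃ f ∈ D, ∀ᶠ n in Filter.atTop, g n ≤ f n :=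
  csInf_mem (s := {κ | ∃ D : Set (ℕ → ℕ), #D = κ ∧
    ∀ g : ℕ → ℕ, ∃ f ∈ D, ∀ᶠ n in Filter.atTop, g n ≤ f n})
    ⟨_, Set.univ, rfl, fun g => ⟨g, mem_univ g, Eventually.of_forall fun _ => le_rfl⟩⟩

theorem dNum_le : dNum ≤ continuum := by
  have : dNum ≤ #(Set.univ : Set (ℕ → ℕ)) := csInf_le'
    ⟨_, rfl, fun g => ⟨g, mem_univ g, Eventually.of_forall fun _ => le_rfl⟩⟩
  refine this.trans ?_
  rw [mk_univ]
  simp

theorem aleph0_le_dNum : ℵ₀ ≤ dNum := by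
  by_contra hcon
  push Not at hcon
  obtain ⟨D, hD, hdom⟩ := dNum_spec
  rw [← hD, lt_aleph0_iff_set_finite] at hcon
  obtain ⟨f, hf, hev⟩ := hdom fun n => (∑ f ∈ hcon.toFinset, f n) + 1
  obtain ⟨n, hn⟩ := hev.exists
  have : f n ≤ ∑ f ∈ hcon.toFinset, f n :=
    Finset.single_le_sum (f := fun f : ℕ → ℕ => f n) (fun _ _ => Nat.zero_le _)
      (hcon.mem_toFinset.2 hf)
  omega

/-- Transport of the selection principle along a homeomorphism. -/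
theorem homeo {Y Z : Type} [TopologicalSpace Y] [TopologicalSpace Z] (φ : Y ≃ₜ Z)
    (h : SFin (Omega Y) (Omega Y)) : SFin (Omega Z) (Omega Z) := by
  intro 𝒰 hU
  have hinj : Function.Injective (fun U : Set Z => φ ⁻¹' U) := Set.preimage_injective.2 φ.surjective
  have hV : ∀ n, (fun U : Set Z => φ ⁻¹' U) '' 𝒰 n ∈ Omega Y := by
    intro n
    refine ⟨?_, fun F => ?_⟩
    · rintro _ ⟨U, hUn, rfl⟩
      refine ⟨((hU n).1 U hUn).1.preimage φ.continuous, fun h => ((hU n).1 U hUn).2 ?_⟩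
      exact hinj (by simpa using h)
    · obtain ⟨U, hUn, hFU⟩ := (hU n).2 (F.image φ)
      refine ⟨_, ⟨U, hUn, rfl⟩, fun y hy => hFU ?_⟩
      exact Finset.mem_coe.2 (Finset.mem_image_of_mem φ hy)
  obtain ⟨ℱ, hF, hFc⟩ := h _ hV
  have hsub : ∀ n U, φ ⁻¹' U ∈ ℱ n → U ∈ 𝒰 n := by
    intro n U hUn
    obtain ⟨U', hU', he⟩ := (hF n).2 hUn
    exact hinj he ▸ hU'
  refine ⟨fun n => (fun U : Set Z => φ ⁻¹' U) ⁻¹' ℱ n, fun n => ⟨(hF n).1.preimage hinj.injOn,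
    fun U hUn => hsub n U hUn⟩, ⟨?_, fun F => ?_⟩⟩
  · intro U hUn
    obtain ⟨n, hn⟩ := mem_iUnion.1 hUn
    exact (hU n).1 U (hsub n U hn)
  · obtain ⟨V, hVm, hFV⟩ := hFc.2 (F.image φ.symm)
    obtain ⟨n, hn⟩ := mem_iUnion.1 hVm
    obtain ⟨U, hUn, rfl⟩ := (hF n).2 hn
    refine ⟨U, mem_iUnion.2 ⟨n, hn⟩, fun z hz => ?_⟩
    have := hFV (Finset.mem_coe.2 (Finset.mem_image_of_mem φ.symm hz))
    simpa using this

/-- Compact spaces satisfy `S_fin(Ω, Ω)`. -/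
theorem compact_sfin {Y : Type} [TopologicalSpace Y] [CompactSpace Y] :
    SFin (Omega Y) (Omega Y) := by
  intro 𝒰 h𝒰
  have hn : ∀ n : ℕ, ∃ ℱ : Set (Set Y), ℱ.Finite ∧ ℱ ⊆ 𝒰 n ∧
      ∀ t : Fin n → Y, ∃ V ∈ ℱ, ∀ i, t i ∈ V := by
    intro n
    obtain ⟨T, hT⟩ := (isCompact_univ (X := Fin n → Y)).elim_finite_subcover
      (fun V : 𝒰 n => {t : Fin n → Y | ∀ i, t i ∈ V.1}) (by
        intro V
        have : {t : Fin n → Y | ∀ i, t i ∈ V.1} = ⋂ i : Fin n, (fun t : Fin n → Y => t i) ⁻¹' V.1 := by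
          ext t; simp
        rw [this]
        exact isOpen_iInter_of_finite fun i => ((h𝒰 n).1 V.1 V.2).1.preimage (continuous_apply i))
      (by
        intro t _
        obtain ⟨V, hV, htV⟩ := (h𝒰 n).2 (Finset.univ.image t)
        exact mem_iUnion.2 ⟨⟨V, hV⟩, fun i => htV (Finset.mem_coe.2 (Finset.mem_image_of_mem _
          (Finset.mem_univ i)))⟩)
    refine ⟨(fun V : 𝒰 n => V.1) '' (T : Set (𝒰 n)), T.finite_toSet.image _, ?_, fun t => ?_⟩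
    · rintro _ ⟨V, -, rfl⟩; exact V.2
    · obtain ⟨V, hV, ht⟩ := mem_iUnion₂.1 (hT (mem_univ t))
      exact ⟨V.1, ⟨V, hV, rfl⟩, ht⟩
  choose ℱ hfin hsub hF using hn
  refine ⟨ℱ, fun n => ⟨hfin n, hsub n⟩, ?_, fun A => ?_⟩
  · intro V hV
    obtain ⟨n, hVn⟩ := mem_iUnion.1 hV
    exact (h𝒰 n).1 V (hsub n hVn)
  · obtain ⟨V, hV, hA⟩ := hF A.card fun i => (A.equivFin.symm i).1
    refine ⟨V, mem_iUnion.2 ⟨_, hV⟩, fun a ha => ?_⟩
    have := hA (A.equivFin ⟨a, ha⟩)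
    simpa using this

theorem Q_countable : Q.Countable := by
  have : Q = ⋃ n, P n := by ext q; simp [Q]
  rw [this]
  exact countable_iUnion fun n => (P_finite n).countable

theorem Q_nonempty : Q.Nonempty := ⟨fun _ => false, 0, fun _ _ => rfl⟩

/-- The main construction, in the Cantor space. -/
theorem exists_card {𝒩 : Set (Set B)} (h : Filt 𝒩) (hc : Cl 𝒩) {μ : Cardinal.{0}}
    (h1 : dNum ≤ μ) (h2 : μ < continuum) :
    ∃ X : Set C, #X = μ ∧ SFin (Omega X) (Omega X) := by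
  obtain ⟨D, hD, hdom⟩ := dNum_spec
  have hμ : ℵ₀ ≤ μ := aleph0_le_dNum.trans h1
  obtain ⟨I0, g, hI0, hcof0, hw0, hg0⟩ := h.scale
  -- a small cofinal part
  have hNf : ∀ f : D, ∃ M ∈ I0, f.1 ∈ M := by
    intro f
    obtain ⟨N, hN, hf⟩ := h.ex f.1
    obtain ⟨M, hM, hs⟩ := hcof0 N hN
    exact ⟨M, hM, hs hf⟩
  choose Nf hNfI hNf using hNf
  have hIcard : #(range Nf) ≤ dNum := hD ▸ mk_range_le
  have hcof1 : ∀ N ∈ 𝒩, ∃ M ∈ range Nf, N ⊆ M := by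
    intro N hN
    obtain ⟨M, hM, hs⟩ := hcof0 N hN
    obtain ⟨f, hf, hev⟩ := hdom (g M)
    refine ⟨Nf ⟨f, hf⟩, ⟨_, rfl⟩, hs.trans ?_⟩
    rcases h.tot (hI0 hM) (hI0 (hNfI ⟨f, hf⟩)) with h3 | h3
    · exact h3
    · exact absurd hev ((hw0 M hM).2.2 f (h3 (hNf ⟨f, hf⟩)))
  have hCc : #C = continuum := by simp [C]
  -- a member with many reals
  have hbig : ∃ M ∈ range Nf, μ ≤ #{z : C | tn z ∈ M} := by
    by_contra hcon
    push Not at hcon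
    have hun : (⋃ M : range Nf, {z : C | tn z ∈ M.1}) = Set.univ := by
      refine eq_univ_of_forall fun z => ?_
      obtain ⟨N, hN, hz⟩ := h.ex (tn z)
      obtain ⟨M, hM, hs⟩ := hcof1 N hN
      exact mem_iUnion.2 ⟨⟨M, hM⟩, hs hz⟩
    have h3 : continuum ≤ μ := by
      calc continuum = #(Set.univ : Set C) := by rw [mk_univ, hCc]
        _ = #(⋃ M : range Nf, {z : C | tn z ∈ M.1}) := by rw [hun]
        _ ≤ #(range Nf) * ⨆ M : range Nf, #{z : C | tn z ∈ M.1} := mk_iUnion_le _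
        _ ≤ μ * μ := mul_le_mul' (hIcard.trans h1) (ciSup_le' fun M => (hcon M.1 M.2).le)
        _ = μ := mul_eq_self hμ
    exact absurd h3 (not_le.2 h2)
  obtain ⟨M1, hM1, hM1c⟩ := hbig
  obtain ⟨Z, hZs, hZc⟩ := le_mk_iff_exists_subset.1 hM1c
  have hM1𝒩 : M1 ∈ 𝒩 := by
    obtain ⟨f, rfl⟩ := hM1
    exact hI0 (hNfI f)
  -- the base
  obtain ⟨N2, hN2, hops⟩ := ops h hc
  obtain ⟨q, hq⟩ := Q_countable.exists_eq_range Q_nonempty
  obtain ⟨N3, hN3, hqN⟩ := h.bdd_pt fun k => tn (q k)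
  obtain ⟨Mb, hMb, hbs⟩ := h.bdd (fun k => Nat.rec M1 (fun k _ => Nat.rec N2 (fun _ _ => N3) k) k) (by
    intro k
    rcases k with _ | _ | k
    · exact hM1𝒩
    · exact hN2
    · exact hN3)
  have b1 : M1 ⊆ Mb := hbs 0
  have b2 : N2 ⊆ Mb := hbs 1
  have b3 : N3 ⊆ Mb := hbs 2
  let I : Set (Set B) := {M | M ∈ range Nf ∧ Mb ⊆ M}
  have hI0' : ∀ M ∈ I, M ∈ I0 := by
    rintro M ⟨⟨f, rfl⟩, -⟩; exact hNfI f
  have hI : I ⊆ 𝒩 := fun M hM => hI0 (hI0' M hM)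
  have hcof : ∀ N ∈ 𝒩, ∃ M ∈ I, N ⊆ M := by
    intro N hN
    rcases h.tot hN hMb with h3 | h3
    · obtain ⟨M, hM, hs⟩ := hcof1 Mb hMb
      exact ⟨M, ⟨hM, hs⟩, h3.trans hs⟩
    · obtain ⟨M, hM, hs⟩ := hcof1 N hN
      exact ⟨M, ⟨hM, h3.trans hs⟩, hs⟩
  have hw : ∀ M ∈ I, Wit M (g M) := fun M hM => hw0 M (hI0' M hM)
  have hg : ∀ M ∈ I, ∀ M' ∈ I, M ⊂ M' → g M ∈ M' := fun M hM M' hM' =>
    hg0 M (hI0' M hM) M' (hI0' M' hM')
  have ho : ∀ M ∈ I, Ops M := fun M hM => hops M (hI hM) (b2.trans hM.2)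
  obtain ⟨U, hU⟩ := ultra (h.chain.mono hI) hw hg ho
  choose r hr using fun M => colour U (g M)
  have hQ : ∀ M ∈ I, ∀ p ∈ Q, tn p ∈ M := by
    intro M hM p hp
    rw [hq] at hp
    obtain ⟨k, rfl⟩ := hp
    exact hM.2 (b3 (hqN k))
  have hZ : ∀ M ∈ I, ∀ z ∈ Z, tn z ∈ M := fun M hM z hz => hM.2 (b1 (hZs hz))
  refine ⟨Xs I g r Z, ?_, sel h hc hI hcof hw hg ho hQ hU (fun M _ => hr M) hZ⟩
  apply le_antisymm
  · have hsub : Xs I g r Z ⊆ Q ∪ ⋃ M : I, pt (r M.1) (g M.1) '' Z := by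
      rintro p (hp | ⟨M, hM, z, hz, rfl⟩)
      · exact Or.inl hp
      · exact Or.inr (mem_iUnion.2 ⟨⟨M, hM⟩, z, hz, rfl⟩)
    calc #(Xs I g r Z) ≤ #(Q ∪ ⋃ M : I, pt (r M.1) (g M.1) '' Z : Set C) := mk_le_mk_of_subset hsub
      _ ≤ #Q + #(⋃ M : I, pt (r M.1) (g M.1) '' Z : Set C) := mk_union_le _ _
      _ ≤ ℵ₀ + #I * ⨆ M : I, #(pt (r M.1) (g M.1) '' Z : Set C) :=
        add_le_add (le_aleph0_iff_set_countable.2 Q_countable) (mk_iUnion_le _)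
      _ ≤ μ + μ * μ := add_le_add hμ (mul_le_mul'
        (((mk_le_mk_of_subset fun M hM => hM.1).trans hIcard).trans h1)
        (ciSup_le' fun M => mk_image_le.trans hZc.le))
      _ = μ := by rw [mul_eq_self hμ, add_eq_self hμ]
  · obtain ⟨M, hM, -⟩ := hcof Mb hMb
    rw [← hZc]
    refine mk_le_of_injective (f := fun z : Z => (⟨pt (r M) (g M) z.1,
      Or.inr ⟨M, hM, z.1, z.2, rfl⟩⟩ : Xs I g r Z)) ?_
    intro z z' he
    exact Subtype.ext (pt_inj (hw M hM).2.1 (congrArg Subtype.val he))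

/-- All cardinals from `𝔡` to `𝔠`. -/
theorem exists_reals {𝒩 : Set (Set B)} (h : Filt 𝒩) (hc : Cl 𝒩) {μ : Cardinal.{0}}
    (h1 : dNum ≤ μ) (h2 : μ ≤ continuum) :
    ∃ X : Set ℝ, #X = μ ∧ SFin (Omega X) (Omega X) := by
  let e : C → ℝ := fun s => (cantorSetHomeomorphNatToBool.symm s : ℝ)
  have he : Topology.IsEmbedding e :=
    Topology.IsEmbedding.subtypeVal.comp cantorSetHomeomorphNatToBool.symm.isEmbedding
  have hX : ∃ X : Set C, #X = μ ∧ SFin (Omega X) (Omega X) := by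
    rcases h2.lt_or_eq with h3 | h3
    · exact exists_card h hc h1 h3
    · refine ⟨Set.univ, by rw [mk_univ, h3]; simp [C], ?_⟩
      have : CompactSpace (Set.univ : Set C) := isCompact_iff_compactSpace.1 isCompact_univ
      exact compact_sfin
  obtain ⟨X, hXc, hXs⟩ := hX
  exact ⟨e '' X, by rw [mk_image_eq he.injective, hXc], homeo (he.homeomorphImage X) hXs⟩

end Pool.Agent.SFN
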