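import Pool.Agent.Lib_helper75.SFN.Ultra

/-! The points and the selection principle. -/

set_option autoImplicit false

namespace Pool.Agent.SFN

open Set Filter
open scoped Classical

abbrev C := ℕ → Bool

def tn (x : C) : B := fun n => (x n).toNat
noncomputable def un (f : B) : C := fun n => decide (f n ≠ 0)

theorem un_tn (x : C) : un (tn x) = x := by
  funext n
  cases h : x n <;> simp [un, tn, h]

/-- The open `ω`-covers of `Y`. -/
def Omega (Y : Type) [TopologicalSpace Y] : Set (Set (Set Y)) :=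
  {𝒰 | (∀ U ∈ 𝒰, IsOpen U ∧ U ≠ Set.univ) ∧ ∀ F : Finset Y, ∃ U ∈ 𝒰, (F : Set Y) ⊆ U}

/-- The selection principle `S_fin(A, B)`. -/
def SFin {Y : Type} (A B : Set (Set (Set Y))) : Prop :=
  ∀ 𝒰 : ℕ → Set (Set Y), (∀ n, 𝒰 n ∈ A) →
    ∃ ℱ : ℕ → Set (Set Y), (∀ n, (ℱ n).Finite ∧ ℱ n ⊆ 𝒰 n) ∧ (⋃ n, ℱ n) ∈ B

/-! ### The sequence and its three colours -/

def sq (b : B) (k : ℕ) : ℕ := (b^[k]) 0

theorem sq_succ (b : B) (k : ℕ) : sq b (k + 1) = b (sq b k) := Function.iterate_succ_apply' _ _ _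

theorem sq_mono {b : B} (h : ∀ n, n < b n) : StrictMono (sq b) :=
  strictMono_nat_of_lt_succ fun k => by rw [sq_succ]; exact h _

noncomputable def blk (b : B) (n : ℕ) : ℕ := Nat.findGreatest (fun k => sq b k ≤ n) n

theorem blk_le (b : B) (n : ℕ) : sq b (blk b n) ≤ n :=
  Nat.findGreatest_spec (P := fun k => sq b k ≤ n) (Nat.zero_le n) (Nat.zero_le n)

theorem lt_blk {b : B} (h : ∀ n, n < b n) (n : ℕ) : n < sq b (blk b n + 1) := by
  by_contra hcon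
  push Not at hcon
  have h1 : blk b n + 1 ≤ n := (sq_mono h).le_apply.trans hcon
  have h2 := Nat.le_findGreatest (P := fun k => sq b k ≤ n) h1 hcon
  exact absurd h2 (by simp [blk])

theorem gap {b : B} (h : ∀ n, n < b n) (hb : StrictMono b) {n j : ℕ} (h1 : n ≤ sq b j)
    (h2 : sq b j < b n) : j = blk b n ∨ j = blk b n + 1 := by
  have h3 : blk b n ≤ j := (sq_mono h).le_iff_le.1 ((blk_le b n).trans h1)
  have h4 : b n < sq b (blk b n + 2) := by
    rw [sq_succ]; exact hb (lt_blk h n)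
  have h5 : j < blk b n + 2 := (sq_mono h).lt_iff_lt.1 (h2.trans h4)
  omega

noncomputable def pt (r : ℕ) (b : B) (z : C) : C := fun i =>
  decide (∃ m ≤ i, i = sq b (3 * m + r + 2) ∧ z m = true)

theorem tn_pt (r : ℕ) (b : B) (z : C) : tn (pt r b z) = ptF r b (tn z) := by
  funext i
  have e : (∃ m ≤ i, i = sq b (3 * m + r + 2) ∧ z m = true) ↔
      (∃ m ≤ i, i = (b^[3 * m + r + 2]) 0 ∧ tn z m = 1) := by
    constructor
    · rintro ⟨m, h1, h2, h3⟩; exact ⟨m, h1, h2, by simp [tn, h3]⟩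
    · rintro ⟨m, h1, h2, h3⟩
      refine ⟨m, h1, h2, ?_⟩
      cases h : z m
      · simp [tn, h] at h3
      · rfl
  by_cases h : ∃ m ≤ i, i = sq b (3 * m + r + 2) ∧ z m = true
  · have h1 : pt r b z i = true := decide_eq_true h
    show (pt r b z i).toNat = ptF r b (tn z) i
    rw [h1]
    exact (if_pos (e.1 h)).symm
  · have h1 : pt r b z i = false := decide_eq_false h
    show (pt r b z i).toNat = ptF r b (tn z) i
    rw [h1]
    exact (if_neg (fun h' => h (e.2 h'))).symm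

theorem pt_at {r : ℕ} {b : B} (h : ∀ n, n < b n) (z : C) (m : ℕ) :
    pt r b z (sq b (3 * m + r + 2)) = z m := by
  have h1 : m ≤ sq b (3 * m + r + 2) := le_trans (by omega) ((sq_mono h).le_apply)
  have : (∃ m' ≤ sq b (3 * m + r + 2), sq b (3 * m + r + 2) = sq b (3 * m' + r + 2) ∧ z m' = true)
      ↔ z m = true := by
    constructor
    · rintro ⟨m', -, h2, h3⟩
      have := (sq_mono h).injective h2
      have : m = m' := by omega
      rw [this]; exact h3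
    · intro h2; exact ⟨m, h1, rfl, h2⟩
  simp only [pt]
  cases hz : z m
  · exact decide_eq_false (by rw [this, hz]; simp)
  · exact decide_eq_true (this.2 hz)

theorem pt_inj {r : ℕ} {b : B} (h : ∀ n, n < b n) : Function.Injective (pt r b) := by
  intro z z' he
  funext m
  rw [← pt_at (r := r) h z m, ← pt_at (r := r) h z' m, he]

theorem pt_gap {r : ℕ} {b : B} (h : ∀ n, n < b n) (hb : StrictMono b) (z : C)
    {n i : ℕ} (hn : blk b n % 3 = r) (h1 : n ≤ i) (h2 : i < b n) : pt r b z i = false := by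
  refine decide_eq_false ?_
  rintro ⟨m, -, rfl, -⟩
  rcases gap h hb h1 h2 with h3 | h3 <;> omega

theorem colour (U : Ultrafilter ℕ) (b : B) : ∃ r < 3, {n | blk b n % 3 = r} ∈ U := by
  have h : {n | blk b n % 3 = 0} ∪ ({n | blk b n % 3 = 1} ∪ {n | blk b n % 3 = 2}) ∈ U := by
    refine Filter.mem_of_superset Filter.univ_mem fun n _ => ?_
    show _ ∨ _ ∨ _
    show blk b n % 3 = 0 ∨ blk b n % 3 = 1 ∨ blk b n % 3 = 2
    omega
  rcases Ultrafilter.union_mem_iff.1 h with h | h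
  · exact ⟨0, by norm_num, h⟩
  · rcases Ultrafilter.union_mem_iff.1 h with h | h
    · exact ⟨1, by norm_num, h⟩
    · exact ⟨2, by norm_num, h⟩

/-! ### The selection -/

def P (n : ℕ) : Set C := {q | ∀ k ≥ n, q k = false}

theorem P_finite (n : ℕ) : (P n).Finite := by
  refine (Set.finite_range fun s : Fin n → Bool =>
    (fun k => if hk : k < n then s ⟨k, hk⟩ else false : C)).subset ?_
  intro q hq
  refine ⟨fun k => q k, funext fun k => ?_⟩
  by_cases hk : k < n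
  · simp [hk]
  · simp [hk, hq k (not_lt.1 hk)]

def Q : Set C := {q | ∃ n, q ∈ P n}

def Cond {X : Set C} (𝒱 : Set (Set X)) (n w : ℕ) (A : Set C) : Prop :=
  ∃ V ∈ 𝒱, ∀ p ∈ A ∪ P n, ∀ y : X, (∀ k < w, y.1 k = p k) → y ∈ V

theorem Cond.mono {X : Set C} {𝒱 : Set (Set X)} {n w w' : ℕ} {A : Set C} (h : Cond 𝒱 n w A)
    (hw : w ≤ w') : Cond 𝒱 n w' A := by
  obtain ⟨V, hV, H⟩ := h
  exact ⟨V, hV, fun p hp y hy => H p hp y fun k hk => hy k (hk.trans_le hw)⟩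

theorem Cond.loc {X : Set C} {𝒱 : Set (Set X)} {n w s : ℕ} {l l' : Fin s → C}
    (h : Cond 𝒱 n w (range l)) (hl : ∀ i, ∀ k < w, l' i k = l i k) : Cond 𝒱 n w (range l') := by
  obtain ⟨V, hV, H⟩ := h
  refine ⟨V, hV, fun p hp y hy => ?_⟩
  rcases hp with ⟨i, rfl⟩ | hp
  · exact H (l i) (Or.inl ⟨i, rfl⟩) y fun k hk => (hy k hk).trans (hl i k hk)
  · exact H p (Or.inr hp) y hy

theorem exists_cyl {V : Set C} (hV : IsOpen V) {p : C} (hp : p ∈ V) :
    ∃ w, ∀ y : C, (∀ k < w, y k = p k) → y ∈ V := by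
  obtain ⟨I, u, hu, hs⟩ := isOpen_pi_iff.1 hV p hp
  refine ⟨I.sup id + 1, fun y hy => hs fun k hk => ?_⟩
  rw [hy k (Nat.lt_succ_of_le (Finset.le_sup (f := id) hk))]
  exact (hu k hk).2

theorem Cond.ex {X : Set C} (hQ : Q ⊆ X) {𝒱 : Set (Set X)} (h𝒱 : 𝒱 ∈ Omega X) (n : ℕ) {A : Set C}
    (hA : A.Finite) (hAX : A ⊆ X) : ∃ w, Cond 𝒱 n w A := by
  have hfin : (A ∪ P n).Finite := hA.union (P_finite n)
  have hsub : A ∪ P n ⊆ X := union_subset hAX fun q hq => hQ ⟨n, hq⟩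
  let T : Finset X := hfin.toFinset.attach.image fun y =>
    ⟨y.1, hsub (hfin.mem_toFinset.1 y.2)⟩
  obtain ⟨V, hV, hTV⟩ := h𝒱.2 T
  obtain ⟨V', hV', hVV'⟩ := isOpen_induced_iff.1 (h𝒱.1 V hV).1
  have hp : ∀ p ∈ A ∪ P n, ∃ w, ∀ y : C, (∀ k < w, y k = p k) → y ∈ V' := by
    intro p hp
    refine exists_cyl hV' ?_
    have h1 : (⟨p, hsub hp⟩ : X) ∈ V := hTV (Finset.mem_coe.2 (Finset.mem_image.2
      ⟨⟨p, hfin.mem_toFinset.2 hp⟩, Finset.mem_attach _ _, rfl⟩))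
    rw [← hVV'] at h1
    exact h1
  choose! w hw using hp
  refine ⟨hfin.toFinset.sup w, V, hV, fun p hp y hy => ?_⟩
  rw [← hVV']
  exact hw p hp y.1 fun k hk => hy k (hk.trans_le (Finset.le_sup (hfin.mem_toFinset.2 hp)))

noncomputable def W {X : Set C} (𝒰 : ℕ → Set (Set X)) (s : ℕ) (t : Fin s → B) : B := fun n =>
  sInf {w | Cond (𝒰 n) n w (range fun i => un (t i))}

theorem W_cont {X : Set C} (hQ : Q ⊆ X) {𝒰 : ℕ → Set (Set X)} (h𝒰 : ∀ n, 𝒰 n ∈ Omega X) (s : ℕ) :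
    ContinuousOn (W 𝒰 s) {t | ∀ i, un (t i) ∈ X} := by
  refine cont_of_loc fun t ht n => ⟨W 𝒰 s t n, fun t' ht' he => ?_⟩
  have hl : ∀ i, ∀ k < W 𝒰 s t n, un (t' i) k = un (t i) k := by
    intro i k hk
    simp only [un, he i k hk]
  have hex : ∀ t : Fin s → B, (∀ i, un (t i) ∈ X) →
      ∃ w, Cond (𝒰 n) n w (range fun i => un (t i)) := fun t ht =>
    Cond.ex hQ (h𝒰 n) n (finite_range _) (by rintro _ ⟨i, rfl⟩; exact ht i)
  have h1 : Cond (𝒰 n) n (W 𝒰 s t n) (range fun i => un (t i)) := Nat.sInf_mem (hex t ht)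
  have h2 : Cond (𝒰 n) n (W 𝒰 s t' n) (range fun i => un (t' i)) := Nat.sInf_mem (hex t' ht')
  apply le_antisymm
  · exact Nat.sInf_le (h1.loc hl)
  · by_contra hlt
    push Not at hlt
    have h3 : Cond (𝒰 n) n (W 𝒰 s t' n) (range fun i => un (t i)) :=
      h2.loc fun i k hk => (hl i k (hk.trans hlt)).symm
    exact absurd (Nat.sInf_le h3 : W 𝒰 s t n ≤ _) (not_le.2 hlt)

/-- The space. -/
def Xs (I : Set (Set B)) (g : Set B → B) (r : Set B → ℕ) (Z : Set C) : Set C :=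
  Q ∪ {p | ∃ M ∈ I, ∃ z ∈ Z, p = pt (r M) (g M) z}

theorem sel {𝒩 : Set (Set B)} (h : Filt 𝒩) (hc : Cl 𝒩) {I : Set (Set B)} {g : Set B → B}
    (hI : I ⊆ 𝒩) (hcof : ∀ N ∈ 𝒩, ∃ M ∈ I, N ⊆ M) (hw : ∀ M ∈ I, Wit M (g M))
    (hg : ∀ M ∈ I, ∀ M' ∈ I, M ⊂ M' → g M ∈ M') (ho : ∀ M ∈ I, Ops M)
    (hQ : ∀ M ∈ I, ∀ q ∈ Q, tn q ∈ M) {U : Ultrafilter ℕ}
    (hU : ∀ M ∈ I, ∀ f ∈ M, {n | f n ≤ g M n} ∈ U) {r : Set B → ℕ}
    (hr : ∀ M ∈ I, r M < 3 ∧ {n | blk (g M) n % 3 = r M} ∈ U) {Z : Set C}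
    (hZ : ∀ M ∈ I, ∀ z ∈ Z, tn z ∈ M) :
    SFin (Omega (Xs I g r Z)) (Omega (Xs I g r Z)) := by
  intro 𝒰 h𝒰
  have hQX : Q ⊆ Xs I g r Z := subset_union_left
  choose Ns hNs hcl using fun s => hc s _ _ (W_cont hQX h𝒰 s)
  obtain ⟨M', hM', hNM'⟩ := h.bdd Ns hNs
  obtain ⟨M0, hM0, hMM0⟩ := hcof M' hM'
  let hh : ℕ → ℕ := g M0
  let good : (n : ℕ) → Set (Set (Fin (hh n) → Bool)) := fun n =>
    {c | ∃ V ∈ 𝒰 n, ∀ y : Xs I g r Z, (fun k : Fin (hh n) => y.1 k) ∈ c → y ∈ V}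
  have hch : ∀ n, ∀ c ∈ good n, ∃ V ∈ 𝒰 n, ∀ y : Xs I g r Z,
    (fun k : Fin (hh n) => y.1 k) ∈ c → y ∈ V := fun n c hc => hc
  choose! V hV hVy using hch
  refine ⟨fun n => V n '' good n, fun n => ⟨(Set.toFinite _).image _, ?_⟩, ?_, fun A => ?_⟩
  · rintro _ ⟨c, hc, rfl⟩; exact hV n c hc
  · intro V' hV'
    obtain ⟨n, c, hc, rfl⟩ := mem_iUnion.1 hV'
    exact (h𝒰 n).1 _ (hV n c hc)
  -- the points inside of `M0`
  let A1 : Finset (Xs I g r Z) := A.filter fun a => tn a.1 ∈ M0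
  let l : Fin A1.card → C := fun i => (A1.equivFin.symm i).1.1
  have hlX : ∀ i, l i ∈ Xs I g r Z := fun i => (A1.equivFin.symm i).1.2
  have hlM : ∀ i, tn (l i) ∈ M0 := fun i => (Finset.mem_filter.1 (A1.equivFin.symm i).2).2
  have hA1l : ∀ a ∈ A1, a.1 ∈ range l := fun a ha => ⟨A1.equivFin ⟨a, ha⟩, by simp [l]⟩
  set w : B := W 𝒰 A1.card (fun i => tn (l i)) with hwdef
  have hwM0 : w ∈ M0 := by
    refine hcl A1.card M0 (hI hM0) ((hNM' _).trans hMM0) _ ?_ hlM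
    intro i
    show un (tn (l i)) ∈ _
    rw [un_tn]; exact hlX i
  -- the other points
  have hother : ∀ a ∈ A, tn a.1 ∉ M0 → {n | ∀ i, n ≤ i → i < w n → a.1 i = false} ∈ U := by
    intro a _ ha
    rcases a.2 with h1 | ⟨M, hM, z, hz, h1⟩
    · exact absurd (hQ M0 hM0 _ h1) ha
    have hsub : M0 ⊆ M := by
      by_contra hns
      have hlt : M ⊂ M0 := by
        rcases h.tot (hI hM0) (hI hM) with h2 | h2
        · exact absurd h2 hns
        · exact ⟨h2, hns⟩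
      refine ha ?_
      rw [h1, tn_pt]
      exact (ho M0 hM0).pt _ (hr M hM).1 _ (hg M hM M0 hM0 hlt) _ (hZ M0 hM0 z hz)
    filter_upwards [hU M hM w (hsub hwM0), (hr M hM).2] with n h2 h3
    intro i hi1 hi2
    rw [h1]
    exact pt_gap (hw M hM).2.1 (hw M hM).1 z h3 hi1 (hi2.trans_le h2)
  have hall : {n | w n ≤ hh n} ∩ ⋂ a ∈ A.filter (fun a => tn a.1 ∉ M0),
      {n | ∀ i, n ≤ i → i < w n → a.1 i = false} ∈ U := by
    refine Filter.inter_mem (hU M0 hM0 w hwM0) ?_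
    rw [Filter.biInter_finset_mem]
    intro a ha
    exact hother a (Finset.mem_filter.1 ha).1 (Finset.mem_filter.1 ha).2
  obtain ⟨n, hn1, hn2⟩ := U.nonempty_of_mem hall
  have hn2' : ∀ a ∈ A, tn a.1 ∉ M0 → ∀ i, n ≤ i → i < w n → a.1 i = false := by
    intro a ha ha'
    have := mem_iInter₂.1 hn2 a (Finset.mem_filter.2 ⟨ha, ha'⟩)
    exact this
  have hrange : (range fun i => un ((fun i => tn (l i)) i)) = range l := by
    congr 1; funext i; exact un_tn _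
  have hcond : Cond (𝒰 n) n (w n) (range l) := by
    have hex : ∃ w', Cond (𝒰 n) n w' (range fun i => un ((fun i => tn (l i)) i)) := by
      rw [hrange]
      exact Cond.ex hQX (h𝒰 n) n (finite_range _) (by rintro _ ⟨i, rfl⟩; exact hlX i)
    have := Nat.sInf_mem hex
    rw [← hrange]; exact this
  obtain ⟨V', hV', hVp⟩ := hcond
  let c : Set (Fin (hh n) → Bool) := (fun a : Xs I g r Z => fun k : Fin (hh n) => a.1 k) '' (A : Set _)
  have hcg : c ∈ good n := by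
    refine ⟨V', hV', fun y hy => ?_⟩
    obtain ⟨a, ha, hay⟩ := hy
    have hya : ∀ k < w n, y.1 k = a.1 k := fun k hk =>
      (congrFun hay ⟨k, hk.trans_le hn1⟩).symm
    by_cases h1 : tn a.1 ∈ M0
    · exact hVp a.1 (Or.inl (hA1l a (Finset.mem_filter.2 ⟨ha, h1⟩))) y hya
    · refine hVp (fun k => if k < n then a.1 k else false) (Or.inr fun k hk => by
        simp [not_lt.2 hk]) y fun k hk => ?_
      rw [hya k hk]
      by_cases h2 : k < n
      · simp [h2]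
      · simp [h2, hn2' a ha h1 k (not_lt.1 h2) hk]
  refine ⟨V n c, mem_iUnion.2 ⟨n, c, hcg, rfl⟩, fun a ha => ?_⟩
  exact hVy n c hcg a ⟨a, ha, rfl⟩

end Pool.Agent.SFN
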