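import Pool.Agent.Lib_helper75.SFN.Chain

/-! Closure properties of the members of the chain and the ultrafilter. -/

set_option autoImplicit false

namespace Pool.Agent.SFN

open Set Filter
open scoped Classical

/-- Every continuous function maps the large members of the chain into themselves. -/
def Cl (𝒩 : Set (Set B)) : Prop :=
  ∀ (s : ℕ) (D : Set (Fin s → B)) (F : (Fin s → B) → B), ContinuousOn F D →
    ∃ N₀ ∈ 𝒩, ∀ N ∈ 𝒩, N₀ ⊆ N → ∀ t ∈ D, (∀ i, t i ∈ N) → F t ∈ N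

theorem cont_of_loc {s : ℕ} {D : Set (Fin s → B)} {F : (Fin s → B) → B}
    (h : ∀ t ∈ D, ∀ n, ∃ K, ∀ t' ∈ D, (∀ i, ∀ k < K, t' i k = t i k) → F t' n = F t n) :
    ContinuousOn F D := by
  refine continuousOn_pi.2 fun n t ht => ?_
  obtain ⟨K, hK⟩ := h t ht n
  have hopen : IsOpen {t' : Fin s → B | ∀ i, ∀ k : Fin K, t' i k = t i k} := by
    have : {t' : Fin s → B | ∀ i, ∀ k : Fin K, t' i k = t i k}
        = ⋂ i : Fin s, ⋂ k : Fin K, (fun t' : Fin s → B => t' i k) ⁻¹' {t i k} := by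
      ext t'; simp
    rw [this]
    refine isOpen_iInter_of_finite fun i => isOpen_iInter_of_finite fun k => ?_
    exact (isOpen_discrete _).preimage ((continuous_apply _).comp (continuous_apply i))
  have hev : ∀ᶠ t' in nhdsWithin t D, F t' n = F t n := by
    have h1 : {t' : Fin s → B | ∀ i, ∀ k : Fin K, t' i k = t i k} ∈ nhds t :=
      hopen.mem_nhds (fun i k => rfl)
    filter_upwards [mem_nhdsWithin_of_mem_nhds h1, self_mem_nhdsWithin] with t' h2 h3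
    exact hK t' h3 fun i k hk => h2 i ⟨k, hk⟩
  exact tendsto_const_nhds.congr' (hev.mono fun _ h => h.symm)

noncomputable def leF (f g : B) : B := fun n => if f n ≤ g n then 1 else 0
def mulF (p q : B) : B := fun n => p n * q n
def maxF (p q : B) : B := fun n => max (p n) (q n)
noncomputable def nxt (p : B) (n : ℕ) : ℕ := sInf {m | n ≤ m ∧ p m ≠ 0}
noncomputable def nextF (p f : B) : B := fun n => f (nxt p n)
noncomputable def ptF (r : ℕ) (b z : B) : B := fun i =>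
  if ∃ m ≤ i, i = (b^[3 * m + r + 2]) 0 ∧ z m = 1 then 1 else 0

/-- The closure properties which are used. -/
structure Ops (M : Set B) : Prop where
  one : (fun _ => 1 : B) ∈ M
  le : ∀ f ∈ M, ∀ g ∈ M, leF f g ∈ M
  mul : ∀ f ∈ M, ∀ g ∈ M, mulF f g ∈ M
  mx : ∀ f ∈ M, ∀ g ∈ M, maxF f g ∈ M
  next : ∀ p ∈ M, ∀ f ∈ M, (∀ n, ∃ m ≥ n, p m ≠ 0) → nextF p f ∈ M
  pt : ∀ r < 3, ∀ b ∈ M, ∀ z ∈ M, ptF r b z ∈ M

theorem nxt_spec {p : B} (h : ∀ n, ∃ m ≥ n, p m ≠ 0) (n : ℕ) : n ≤ nxt p n ∧ p (nxt p n) ≠ 0 :=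
  Nat.sInf_mem (s := {m | n ≤ m ∧ p m ≠ 0}) (h n)

theorem nxt_le {p : B} {n m : ℕ} (h : n ≤ m) (hm : p m ≠ 0) : nxt p n ≤ m :=
  Nat.sInf_le (s := {m | n ≤ m ∧ p m ≠ 0}) ⟨h, hm⟩

theorem iter_loc (b : B) (j : ℕ) : ∃ K, ∀ b' : B, (∀ k < K, b' k = b k) →
    (b'^[j]) 0 = (b^[j]) 0 := by
  induction j with
  | zero => exact ⟨0, fun _ _ => rfl⟩
  | succ j ih =>
    obtain ⟨K, hK⟩ := ih
    refine ⟨max K ((b^[j]) 0 + 1), fun b' hb' => ?_⟩
    rw [Function.iterate_succ_apply', Function.iterate_succ_apply',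
      hK b' fun k hk => hb' k (lt_of_lt_of_le hk (le_max_left _ _))]
    exact hb' _ (lt_of_lt_of_le (Nat.lt_succ_self _) (le_max_right _ _))

/-- binary version of the closure property -/
theorem cl2 {𝒩 : Set (Set B)} (hc : Cl 𝒩) (D : Set (B × B)) (F : B → B → B)
    (h : ∀ t ∈ D, ∀ n, ∃ K, ∀ t' ∈ D, (∀ k < K, t'.1 k = t.1 k ∧ t'.2 k = t.2 k) →
      F t'.1 t'.2 n = F t.1 t.2 n) :
    ∃ N₀ ∈ 𝒩, ∀ N ∈ 𝒩, N₀ ⊆ N → ∀ x ∈ N, ∀ y ∈ N, (x, y) ∈ D → F x y ∈ N := by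
  obtain ⟨N₀, h0, h1⟩ := hc 2 {t | (t 0, t 1) ∈ D} (fun t => F (t 0) (t 1)) (cont_of_loc (by
    intro t ht n
    obtain ⟨K, hK⟩ := h (t 0, t 1) ht n
    exact ⟨K, fun t' ht' he => hK (t' 0, t' 1) ht' fun k hk => ⟨he 0 k hk, he 1 k hk⟩⟩))
  refine ⟨N₀, h0, fun N hN hs x hx y hy hD => ?_⟩
  have := h1 N hN hs ![x, y] (by simpa using hD) (by
    intro i
    fin_cases i
    · exact hx
    · exact hy)
  simpa using this

theorem ops {𝒩 : Set (Set B)} (h : Filt 𝒩) (hc : Cl 𝒩) :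
    ∃ N₀ ∈ 𝒩, ∀ N ∈ 𝒩, N₀ ⊆ N → Ops N := by
  obtain ⟨N1, h1, H1⟩ := h.ex (fun _ => 1)
  obtain ⟨N2, h2, H2⟩ := cl2 hc univ leF (fun t _ n => ⟨n + 1, fun t' _ he => by
    simp only [leF, (he n (Nat.lt_succ_self n)).1, (he n (Nat.lt_succ_self n)).2]⟩)
  obtain ⟨N3, h3, H3⟩ := cl2 hc univ mulF (fun t _ n => ⟨n + 1, fun t' _ he => by
    simp only [mulF, (he n (Nat.lt_succ_self n)).1, (he n (Nat.lt_succ_self n)).2]⟩)
  obtain ⟨N4, h4, H4⟩ := cl2 hc univ maxF (fun t _ n => ⟨n + 1, fun t' _ he => by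
    simp only [maxF, (he n (Nat.lt_succ_self n)).1, (he n (Nat.lt_succ_self n)).2]⟩)
  obtain ⟨N5, h5, H5⟩ := cl2 hc {t | ∀ n, ∃ m ≥ n, t.1 m ≠ 0} nextF (fun t ht n => by
    refine ⟨nxt t.1 n + 1, fun t' ht' he => ?_⟩
    have e : nxt t'.1 n = nxt t.1 n := by
      apply le_antisymm
      · refine nxt_le (nxt_spec ht n).1 ?_
        rw [(he _ (Nat.lt_succ_self _)).1]; exact (nxt_spec ht n).2
      · by_contra hlt
        push Not at hlt
        have h7 := nxt_spec ht' n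
        rw [(he _ (by omega)).1] at h7
        exact absurd (nxt_le h7.1 h7.2) (by omega)
    show t'.2 (nxt t'.1 n) = t.2 (nxt t.1 n)
    rw [e, (he _ (Nat.lt_succ_self _)).2])
  have hpt : ∀ r, ∃ N₀ ∈ 𝒩, ∀ N ∈ 𝒩, N₀ ⊆ N → ∀ x ∈ N, ∀ y ∈ N, (x, y) ∈ (univ : Set (B × B)) →
      ptF r x y ∈ N := by
    intro r
    refine cl2 hc univ (ptF r) (fun t _ i => ?_)
    have hK : ∀ m : ℕ, ∃ K, ∀ b' : B, (∀ k < K, b' k = t.1 k) →
      (b'^[3 * m + r + 2]) 0 = (t.1^[3 * m + r + 2]) 0 := fun m => iter_loc t.1 _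
    choose K hK using hK
    refine ⟨(∑ m ∈ Finset.range (i + 1), K m) + (i + 1), fun t' _ he => ?_⟩
    have e1 : ∀ m ≤ i, (t'.1^[3 * m + r + 2]) 0 = (t.1^[3 * m + r + 2]) 0 := by
      intro m hm
      refine hK m t'.1 fun k hk => (he k ?_).1
      have : K m ≤ ∑ m ∈ Finset.range (i + 1), K m :=
        Finset.single_le_sum (f := K) (fun _ _ => Nat.zero_le _)
          (Finset.mem_range.2 (Nat.lt_succ_of_le hm))
      omega
    have e2 : ∀ m ≤ i, t'.2 m = t.2 m := fun m hm => (he m (by omega)).2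
    have : (∃ m ≤ i, i = (t'.1^[3 * m + r + 2]) 0 ∧ t'.2 m = 1) ↔
        (∃ m ≤ i, i = (t.1^[3 * m + r + 2]) 0 ∧ t.2 m = 1) := by
      constructor
      · rintro ⟨m, hm, h1, h2⟩
        exact ⟨m, hm, by rw [← e1 m hm]; exact h1, by rw [← e2 m hm]; exact h2⟩
      · rintro ⟨m, hm, h1, h2⟩
        exact ⟨m, hm, by rw [e1 m hm]; exact h1, by rw [e2 m hm]; exact h2⟩
    simp only [ptF, this]
  choose P hP HP using hpt
  obtain ⟨M, hM, hs⟩ := h.bdd (fun k => Nat.rec N1 (fun k _ => Nat.rec N2 (fun k _ => Nat.rec N3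
    (fun k _ => Nat.rec N4 (fun k _ => Nat.rec N5 (fun k _ => P k) k) k) k) k) k) (by
      intro k
      rcases k with _ | _ | _ | _ | _ | k
      · exact h1
      · exact h2
      · exact h3
      · exact h4
      · exact h5
      · exact hP k)
  have s1 : N1 ⊆ M := hs 0
  have s2 : N2 ⊆ M := hs 1
  have s3 : N3 ⊆ M := hs 2
  have s4 : N4 ⊆ M := hs 3
  have s5 : N5 ⊆ M := hs 4
  have s6 : ∀ r, P r ⊆ M := fun r => hs (r + 5)
  refine ⟨M, hM, fun N hN hMN => ⟨hMN (s1 H1), fun f hf g hg => ?_, fun f hf g hg => ?_,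
    fun f hf g hg => ?_, fun p hp f hf hi => ?_, fun r _ b hb z hz => ?_⟩⟩
  · exact H2 N hN (s2.trans hMN) f hf g hg (mem_univ _)
  · exact H3 N hN (s3.trans hMN) f hf g hg (mem_univ _)
  · exact H4 N hN (s4.trans hMN) f hf g hg (mem_univ _)
  · exact H5 N hN (s5.trans hMN) p hp f hf hi
  · exact HP r N hN ((s6 r).trans hMN) b hb z hz (mem_univ _)

/-- The finite intersection property. -/
theorem fip {I : Set (Set B)} {g : Set B → B} (hch : IsChain (· ⊆ ·) I)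
    (hw : ∀ M ∈ I, Wit M (g M)) (hg : ∀ M ∈ I, ∀ M' ∈ I, M ⊂ M' → g M ∈ M')
    (ho : ∀ M ∈ I, Ops M) (c : ℕ) : ∀ (S : Finset (Set B)) (f : Set B → B), S.card = c →
      (∀ M ∈ S, M ∈ I) → (∀ M ∈ S, f M ∈ M) →
      {n | ∀ M ∈ S, f M n ≤ g M n}.Infinite ∧ ∀ M' ∈ I, (∀ M ∈ S, M ⊂ M') →
        (fun n => if ∀ M ∈ S, f M n ≤ g M n then 1 else 0 : B) ∈ M' := by
  induction c with
  | zero =>
    intro S f hc _ _
    rw [Finset.card_eq_zero] at hc
    subst hc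
    refine ⟨by simpa using Set.infinite_univ, fun M' hM' _ => ?_⟩
    simpa using (ho M' hM').one
  | succ c ih =>
    intro S f hc hSI hf
    have hne : S.Nonempty := Finset.card_pos.1 (by omega)
    obtain ⟨M, hM, hmax⟩ := Finset.exists_maximal hne
    have hle : ∀ M'' ∈ S, M'' ⊆ M := by
      intro M'' hM''
      rcases hch.total (hSI _ hM'') (hSI _ hM) with h1 | h1
      · exact h1
      · exact hmax hM'' h1
    have hlt : ∀ M'' ∈ S.erase M, M'' ⊂ M := by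
      intro M'' hM''
      exact (hle M'' (Finset.mem_of_mem_erase hM'')).ssubset_of_ne (Finset.ne_of_mem_erase hM'')
    obtain ⟨hinf, hch'⟩ := ih (S.erase M) f (by rw [Finset.card_erase_of_mem hM]; omega)
      (fun M'' h => hSI _ (Finset.mem_of_mem_erase h)) (fun M'' h => hf _ (Finset.mem_of_mem_erase h))
    set p : B := fun n => if ∀ M'' ∈ S.erase M, f M'' n ≤ g M'' n then 1 else 0 with hp
    have hpM : p ∈ M := hch' M (hSI M hM) hlt
    have hpne : ∀ m, p m ≠ 0 ↔ ∀ M'' ∈ S.erase M, f M'' m ≤ g M'' m := by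
      intro m
      simp [hp]
    have hpinf : ∀ n, ∃ m ≥ n, p m ≠ 0 := by
      intro n
      obtain ⟨m, hm, hnm⟩ := hinf.exists_gt n
      exact ⟨m, hnm.le, (hpne m).2 hm⟩
    have hsplit : ∀ n, (∀ M'' ∈ S, f M'' n ≤ g M'' n) ↔
        (∀ M'' ∈ S.erase M, f M'' n ≤ g M'' n) ∧ f M n ≤ g M n := by
      intro n
      constructor
      · exact fun h => ⟨fun M'' h' => h _ (Finset.mem_of_mem_erase h'), h M hM⟩
      · rintro ⟨h1, h2⟩ M'' h'
        by_cases he : M'' = M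
        · exact he ▸ h2
        · exact h1 _ (Finset.mem_erase.2 ⟨he, h'⟩)
    have hwM := hw M (hSI M hM)
    refine ⟨?_, fun M' hM' hs => ?_⟩
    · rw [← Nat.frequently_atTop_iff_infinite, Filter.frequently_atTop]
      intro N
      have h1 := hwM.2.2 (nextF p (f M)) ((ho M (hSI M hM)).next p hpM (f M) (hf M hM) hpinf)
      rw [Filter.not_eventually, Filter.frequently_atTop] at h1
      obtain ⟨n, hn, hlt'⟩ := h1 N
      have h2 := nxt_spec hpinf n
      refine ⟨nxt p n, le_trans hn h2.1, (hsplit _).2 ⟨(hpne _).1 h2.2, ?_⟩⟩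
      have h3 : f M (nxt p n) < g M n := not_le.1 hlt'
      exact h3.le.trans (hwM.1.monotone h2.1)
    · have e : (fun n => if ∀ M'' ∈ S, f M'' n ≤ g M'' n then 1 else 0 : B)
          = mulF p (leF (f M) (g M)) := by
        funext n
        simp only [mulF, leF, hp]
        by_cases h1 : ∀ M'' ∈ S.erase M, f M'' n ≤ g M'' n
        · by_cases h2 : f M n ≤ g M n
          · rw [if_pos ((hsplit n).2 ⟨h1, h2⟩), if_pos h1, if_pos h2]
          · rw [if_neg (fun h => h2 ((hsplit n).1 h).2), if_neg h2]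
            simp
        · rw [if_neg (fun h => h1 ((hsplit n).1 h).1), if_neg h1]
          simp
      rw [e]
      have hMM' := hs M hM
      exact (ho M' hM').mul p (hMM'.1 hpM) _ ((ho M' hM').le _ (hMM'.1 (hf M hM)) _
        (hg M (hSI M hM) M' hM' hMM'))

/-- The ultrafilter. -/
theorem ultra {I : Set (Set B)} {g : Set B → B} (hch : IsChain (· ⊆ ·) I)
    (hw : ∀ M ∈ I, Wit M (g M)) (hg : ∀ M ∈ I, ∀ M' ∈ I, M ⊂ M' → g M ∈ M')
    (ho : ∀ M ∈ I, Ops M) :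
    ∃ U : Ultrafilter ℕ, (∀ M ∈ I, ∀ f ∈ M, {n | f n ≤ g M n} ∈ U) := by
  let 𝒮 : Set (Set ℕ) := {s | ∃ M ∈ I, ∃ f ∈ M, s = {n | f n ≤ g M n}}
  have hne : (generate 𝒮).NeBot := by
    rw [generate_neBot_iff]
    intro t ht hfin
    have hsel : ∀ s ∈ t, ∃ M ∈ I, ∃ f ∈ M, s = {n | f n ≤ g M n} := fun s hs => ht hs
    choose! Ms hMs fs hfs hse using hsel
    let T : Finset (Set ℕ) := hfin.toFinset
    have hT : ∀ s, s ∈ T ↔ s ∈ t := fun s => hfin.mem_toFinset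
    let S : Finset (Set B) := T.image Ms
    -- the maximum of the functions with a given member
    have hmax : ∀ M ∈ I, ∀ R : Finset (Set ℕ), (∀ s ∈ R, s ∈ t ∧ Ms s = M) →
        ∃ F ∈ M, ∀ s ∈ R, ∀ n, fs s n ≤ F n := by
      intro M hM R
      induction R using Finset.induction_on with
      | empty => exact fun _ => ⟨_, (ho M hM).one, by simp⟩
      | insert s R hs ih =>
        intro hR
        obtain ⟨F, hF, hFR⟩ := ih (fun s' hs' => hR s' (Finset.mem_insert_of_mem hs'))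
        have h1 := hR s (Finset.mem_insert_self _ _)
        have h2 : fs s ∈ M := h1.2 ▸ hfs s h1.1
        refine ⟨maxF (fs s) F, (ho M hM).mx _ h2 _ hF, ?_⟩
        intro s' hs' n
        rcases Finset.mem_insert.1 hs' with rfl | h3
        · exact le_max_left _ _
        · exact (hFR s' h3 n).trans (le_max_right _ _)
    have hF : ∀ M ∈ S, ∃ F ∈ M, ∀ s ∈ t, Ms s = M → ∀ n, fs s n ≤ F n := by
      intro M hM
      obtain ⟨s, hs, rfl⟩ := Finset.mem_image.1 hM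
      obtain ⟨F, hF, hFR⟩ := hmax (Ms s) (hMs s ((hT s).1 hs)) (T.filter fun s' => Ms s' = Ms s)
        (fun s' hs' => ⟨(hT s').1 (Finset.mem_filter.1 hs').1, (Finset.mem_filter.1 hs').2⟩)
      exact ⟨F, hF, fun s' hs' he => hFR s' (Finset.mem_filter.2 ⟨(hT s').2 hs', he⟩)⟩
    choose! F hFM hFs using hF
    obtain ⟨hinf, -⟩ := fip hch hw hg ho S.card S F rfl (by
      intro M hM
      obtain ⟨s, hs, rfl⟩ := Finset.mem_image.1 hM
      exact hMs s ((hT s).1 hs)) hFM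
    obtain ⟨n, hn⟩ := hinf.nonempty
    refine ⟨n, fun s hs => ?_⟩
    rw [hse s hs]
    have hMS : Ms s ∈ S := Finset.mem_image_of_mem _ ((hT s).2 hs)
    exact (hFs (Ms s) hMS s hs rfl n).trans (hn _ hMS)
  refine ⟨@Ultrafilter.of ℕ (generate 𝒮) hne, fun M hM f hf => ?_⟩
  have hmem : {n | f n ≤ g M n} ∈ generate 𝒮 := mem_generate_of_mem ⟨M, hM, f, hf, rfl⟩
  exact @Ultrafilter.of_le ℕ (generate 𝒮) hne _ hmem

end Pool.Agent.SFN
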